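import Mathlib

/-!
# A family of finite sets of nodes for the ideal generated by the antichains

Let `𝓕` consist of the finite antichains of the binary tree and of the finite chains `F` with
`|F| ≤ |t| + 1` for all nodes `t` in `F` (`|t|` is the length of `t`). For a set `H` of nodes the
space `X_{𝓕 ↾ H}` contains no copy of `c_0` if and only if `H` is a union of finitely many
antichains.
-/

set_option autoImplicit false

open Filter Topology Set
open scoped ZeroAtInfty

namespace Pool.Agent.Results.MP_de5a3f_an.AntichainSchreierFamily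

/-- The finitely supported vectors on `Ω`, with the (semi)norm given by the family `𝓕`. -/
def C00 {Ω : Type} (_𝓕 : Set (Finset Ω)) : Type := Ω →₀ ℝ

section Norm

variable {Ω : Type} (𝓕 : Set (Finset Ω))

noncomputable instance : AddCommGroup (C00 𝓕) := inferInstanceAs (AddCommGroup (Ω →₀ ℝ))
noncomputable instance : Module ℝ (C00 𝓕) := inferInstanceAs (Module ℝ (Ω →₀ ℝ))
instance : CoeFun (C00 𝓕) fun _ => Ω → ℝ := ⟨fun x => DFunLike.coe (F := Ω →₀ ℝ) x⟩

/-- `‖x‖ = sup_{F ∈ 𝓕} ∑_{k ∈ F} |x k|` -/
noncomputable instance : Norm (C00 𝓕) := ⟨fun x => ⨆ F : 𝓕, ∑ k ∈ (F : Finset Ω), |x k|⟩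

variable {𝓕}

theorem sum_le_l1 (x : C00 𝓕) (F : Finset Ω) :
    ∑ k ∈ F, |x k| ≤ ∑ k ∈ Finsupp.support (α := Ω) (M := ℝ) x, |x k| := by
  classical
  calc ∑ k ∈ F, |x k| = ∑ k ∈ F.filter (fun k => x k ≠ 0), |x k| := by
        rw [Finset.sum_filter]
        refine Finset.sum_congr rfl fun k _ => ?_
        by_cases h : x k = 0
        · simp [h]
        · simp [h]
    _ ≤ _ := by
        refine Finset.sum_le_sum_of_subset_of_nonneg ?_ fun _ _ _ => abs_nonneg _
        intro k hk
        rw [Finset.mem_filter] at hk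
        exact Finsupp.mem_support_iff.2 hk.2

theorem bdd (x : C00 𝓕) : BddAbove (range fun F : 𝓕 => ∑ k ∈ (F : Finset Ω), |x k|) :=
  ⟨_, by rintro _ ⟨F, rfl⟩; exact sum_le_l1 x F⟩

theorem le_norm (x : C00 𝓕) {F : Finset Ω} (hF : F ∈ 𝓕) : ∑ k ∈ F, |x k| ≤ ‖x‖ :=
  le_ciSup (bdd x) (⟨F, hF⟩ : 𝓕)

theorem norm_le (x : C00 𝓕) {C : ℝ} (hC : 0 ≤ C) (h : ∀ F ∈ 𝓕, ∑ k ∈ F, |x k| ≤ C) : ‖x‖ ≤ C :=
  Real.iSup_le (fun F => h F.1 F.2) hC

theorem core : SeminormedSpace.Core ℝ (C00 𝓕) where
  norm_nonneg x := Real.iSup_nonneg fun F => Finset.sum_nonneg fun _ _ => abs_nonneg _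
  norm_smul c x := by
    show (⨆ F : 𝓕, ∑ k ∈ (F : Finset Ω), |(c • x : C00 𝓕) k|) = ‖c‖ * ⨆ F : 𝓕, _
    rw [Real.mul_iSup_of_nonneg (norm_nonneg c)]
    refine iSup_congr fun F => ?_
    rw [Finset.mul_sum]
    refine Finset.sum_congr rfl fun k _ => ?_
    show |c * x k| = _
    rw [abs_mul, Real.norm_eq_abs]
  norm_triangle x y := by
    have h0 : ∀ z : C00 𝓕, 0 ≤ ‖z‖ := fun z =>
      Real.iSup_nonneg fun F => Finset.sum_nonneg fun _ _ => abs_nonneg _
    refine norm_le _ (add_nonneg (h0 x) (h0 y)) fun F hF => ?_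
    refine le_trans ?_ (add_le_add (le_norm x hF) (le_norm y hF))
    rw [← Finset.sum_add_distrib]
    exact Finset.sum_le_sum fun k _ => abs_add_le _ _

noncomputable instance : SeminormedAddCommGroup (C00 𝓕) := SeminormedAddCommGroup.ofCore core

noncomputable instance : NormedSpace ℝ (C00 𝓕) where
  norm_smul_le c x := (core.norm_smul c x).le

end Norm

/-- The space `X_𝓕`: the completion of `c_00(Ω)`. -/
abbrev X {Ω : Type} (𝓕 : Set (Finset Ω)) : Type := UniformSpace.Completion (C00 𝓕)

/-- `E` contains a subspace isomorphic to `c_0`. -/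
def ContainsC0 (E : Type) [NormedAddCommGroup E] [NormedSpace ℝ E] : Prop :=
  ∃ (T : C₀(ℕ, ℝ) →L[ℝ] E) (c : ℝ), 0 < c ∧ ∀ a, c * ‖a‖ ≤ ‖T a‖

open Classical in
/-- `𝓕 ↾ H = {F ∩ H : F ∈ 𝓕}`, a family of finite subsets of `H`. -/
def restrict {Ω : Type} (𝓕 : Set (Finset Ω)) (H : Set Ω) : Set (Finset H) :=
  (fun F : Finset Ω => F.subtype (· ∈ H)) '' 𝓕

/-- The nodes of the binary tree; `s <+: t` means that `t` extends `s`. -/
abbrev Node : Type := List Bool

/-- `H` is a union of finitely many antichains. -/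
def FinUnionAntichains (H : Set Node) : Prop :=
  ∃ (n : ℕ) (A : Fin n → Set Node), (∀ i, IsAntichain (fun s t : Node => s <+: t) (A i)) ∧
    H = ⋃ i, A i

/-- The family: finite antichains, and finite chains `F` with `|F| ≤ |t| + 1` for all `t ∈ F`. -/
def family : Set (Finset Node) :=
  {F | IsAntichain (fun s t : Node => s <+: t) (F : Set Node) ∨
    (IsChain (fun s t : Node => s <+: t) (F : Set Node) ∧ ∀ t ∈ F, F.card ≤ t.length + 1)}

section C0

/-- the unit vectors of `c_0` and their finite combinations -/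
noncomputable def vec (s : Finset ℕ) (f : ℕ → ℝ) : C₀(ℕ, ℝ) where
  toFun k := if k ∈ s then f k else 0
  continuous_toFun := continuous_of_discreteTopology
  zero_at_infty' := by
    rw [cocompact_eq_cofinite, Nat.cofinite_eq_atTop]
    refine tendsto_const_nhds.congr' ?_
    filter_upwards [eventually_gt_atTop (s.sup id)] with k hk
    rw [if_neg]
    intro h
    exact absurd (Finset.le_sup (f := id) h) (not_le.2 hk)

theorem norm_le_c0 (a : C₀(ℕ, ℝ)) {C : ℝ} (hC : 0 ≤ C) (h : ∀ k, |a k| ≤ C) : ‖a‖ ≤ C := by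
  rw [← ZeroAtInftyContinuousMap.norm_toBCF_eq_norm]
  exact (BoundedContinuousFunction.norm_le hC).2 h

theorem abs_le_norm (a : C₀(ℕ, ℝ)) (k : ℕ) : |a k| ≤ ‖a‖ := by
  rw [← ZeroAtInftyContinuousMap.norm_toBCF_eq_norm]
  exact a.toBCF.norm_coe_le_norm k

theorem vec_eq_sum (s : Finset ℕ) (f : ℕ → ℝ) : vec s f = ∑ k ∈ s, f k • vec {k} (fun _ => 1) := by
  ext j
  have h1 : ∀ t : Finset ℕ, (∑ k ∈ t, f k • vec {k} (fun _ => 1) : C₀(ℕ, ℝ)) j =
      ∑ k ∈ t, f k * (if j = k then 1 else 0) := by
    intro t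
    induction t using Finset.induction_on with
    | empty => simp
    | insert a t ha ih =>
      rw [Finset.sum_insert ha, Finset.sum_insert ha, ZeroAtInftyContinuousMap.add_apply, ih]
      congr 1
      simp [vec]
  rw [h1]
  simp [vec]

theorem functional_tendsto (f : C₀(ℕ, ℝ) →L[ℝ] ℝ) :
    Tendsto (fun k => f (vec {k} fun _ => 1)) atTop (𝓝 0) := by
  have hs : Summable fun k => |f (vec {k} fun _ => 1)| := by
    refine summable_of_sum_le (c := ‖f‖) (fun _ => abs_nonneg _) fun s => ?_
    have h1 : ∑ k ∈ s, |f (vec {k} fun _ => 1)| =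
        f (vec s fun k => SignType.sign (f (vec {k} fun _ => 1))) := by
      rw [vec_eq_sum, map_sum]
      refine Finset.sum_congr rfl fun k _ => ?_
      rw [map_smul, smul_eq_mul, sign_mul_self]
    rw [h1]
    refine (le_abs_self _).trans ((f.le_opNorm _).trans ?_)
    refine mul_le_of_le_one_right (norm_nonneg _) (norm_le_c0 _ zero_le_one fun k => ?_)
    show |if k ∈ s then _ else (0 : ℝ)| ≤ 1
    split_ifs
    · rcases lt_trichotomy (f (vec {k} fun _ => 1)) 0 with h | h | h
      · simp [h]
      · simp [h]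
      · simp [h]
    · simp
  exact tendsto_zero_iff_abs_tendsto_zero _ |>.2 hs.tendsto_atTop_zero

/-- `ℓ_1` contains no copy of `c_0`. -/
theorem no_c0_l1 {Ω : Type} (R : C₀(ℕ, ℝ) →L[ℝ] lp (fun _ : Ω => ℝ) 1) {c : ℝ} (hc : 0 < c)
    (h : ∀ a, c * ‖a‖ ≤ ‖R a‖) : False := by
  classical
  have hsum : ∀ g : lp (fun _ : Ω => ℝ) 1, Summable fun j => |g j| := by
    intro g
    have := (lp.memℓp g).summable (by simp)
    simpa using this
  have hnorm : ∀ g : lp (fun _ : Ω => ℝ) 1, ‖g‖ = ∑' j, |g j| := by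
    intro g
    rw [lp.norm_eq_tsum_rpow (by simp)]
    simp
  have key : ∀ n : ℕ, ∃ s : Finset ℕ, n * (c / 2) ≤ ‖R (vec s fun _ => 1)‖ := by
    intro n
    induction n with
    | zero => exact ⟨∅, by simp⟩
    | succ n ih =>
      obtain ⟨s, hs⟩ := ih
      set u := vec s fun _ => 1 with hu
      obtain ⟨E, hE⟩ : ∃ E : Finset Ω, ‖R u‖ - c / 8 < ∑ j ∈ E, |R u j| := by
        rw [hnorm]
        have h1 := (hsum (R u)).hasSum
        have h2 := h1.eventually (lt_mem_nhds (show (∑' j, |R u j|) - c / 8 < ∑' j, |R u j| by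
          linarith))
        exact h2.exists
      have hk : ∃ k, k ∉ s ∧ ∑ j ∈ E, |R (vec {k} fun _ => 1) j| < c / 8 := by
        have h1 : Tendsto (fun k => ∑ j ∈ E, |R (vec {k} fun _ => 1) j|) atTop
            (𝓝 (∑ j ∈ E, |(0 : ℝ)|)) := by
          refine tendsto_finsetSum _ fun j _ => ?_
          exact (functional_tendsto ((lp.evalCLM ℝ (fun _ : Ω => ℝ) 1 j).comp R)).abs
        rw [abs_zero, Finset.sum_const_zero] at h1
        have h2 := h1.eventually (gt_mem_nhds (show (0 : ℝ) < c / 8 by positivity))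
        obtain ⟨k, hk1, hk2⟩ := (h2.and (eventually_gt_atTop (s.sup id))).exists
        exact ⟨k, fun hks => absurd (Finset.le_sup (f := id) hks) (not_le.2 hk2), hk1⟩
      obtain ⟨k, hks, hk⟩ := hk
      set e := vec {k} fun _ => (1 : ℝ) with he
      have hue : vec (insert k s) (fun _ => 1) = u + e := by
        rw [hu, he, vec_eq_sum, vec_eq_sum s, Finset.sum_insert hks, one_smul, add_comm]
      refine ⟨insert k s, ?_⟩
      rw [hue, map_add]
      have he1 : c ≤ ‖R e‖ := by
        have h1 : (1 : ℝ) ≤ ‖e‖ := by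
          have := abs_le_norm e k
          have h2 : e k = 1 := by simp [he, vec]
          rw [h2, abs_one] at this
          exact this
        have := h e
        nlinarith
      -- the main estimate
      set m : Ω → ℝ := fun j => if j ∈ E then |R e j| else |R u j| with hm
      have hm1 : Summable m := by
        refine Summable.of_nonneg_of_le (fun j => ?_) (fun j => ?_) ((hsum (R e)).add (hsum (R u)))
        · simp only [hm]; split_ifs <;> exact abs_nonneg _
        · simp only [hm]
          split_ifs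
          · linarith [abs_nonneg (R u j)]
          · linarith [abs_nonneg (R e j)]
      have hm2 : ∑' j, m j < c / 4 := by
        have h1 : m = fun j => (if j ∈ E then |R e j| else 0) + (|R u j| -
            (if j ∈ E then |R u j| else 0)) := by
          funext j
          simp only [hm]
          split_ifs <;> ring
        have h2 : HasSum (fun j => if j ∈ E then |R e j| else 0) (∑ j ∈ E, |R e j|) := by
          have : HasSum (fun j => if j ∈ E then |R e j| else 0)
              (∑ j ∈ E, if j ∈ E then |R e j| else 0) :=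
            hasSum_sum_of_ne_finset_zero (fun j hj => by simp [hj])
          rwa [Finset.sum_congr rfl fun j hj => if_pos hj] at this
        have h3 : HasSum (fun j => if j ∈ E then |R u j| else 0) (∑ j ∈ E, |R u j|) := by
          have : HasSum (fun j => if j ∈ E then |R u j| else 0)
              (∑ j ∈ E, if j ∈ E then |R u j| else 0) :=
            hasSum_sum_of_ne_finset_zero (fun j hj => by simp [hj])
          rwa [Finset.sum_congr rfl fun j hj => if_pos hj] at this
        have h4 := h2.add ((hsum (R u)).hasSum.sub h3)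
        rw [h1, h4.tsum_eq, ← hnorm]
        linarith
      have hterm : ∀ j, |R e j| + |R u j| - 2 * m j ≤ |(R u + R e) j| := by
        intro j
        have e1 : (R u + R e) j = R u j + R e j := rfl
        rw [e1]
        simp only [hm]
        split_ifs
        · have := abs_sub_abs_le_abs_sub (R u j) (-(R e j))
          rw [abs_neg, sub_neg_eq_add] at this
          linarith
        · have := abs_sub_abs_le_abs_sub (R e j) (-(R u j))
          rw [abs_neg, sub_neg_eq_add, add_comm (R e j)] at this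
          linarith
      have hfin : ‖R e‖ + ‖R u‖ - 2 * ∑' j, m j ≤ ‖R u + R e‖ := by
        rw [hnorm (R e), hnorm (R u), hnorm (R u + R e)]
        have h5 := (((hsum (R e)).hasSum.add (hsum (R u)).hasSum).sub (hm1.hasSum.mul_left 2))
        have h6 := h5.tsum_eq
        rw [← h6]
        exact Summable.tsum_le_tsum hterm h5.summable (hsum _)
      push_cast
      linarith
  obtain ⟨n, hn⟩ := exists_nat_gt (‖R‖ / (c / 2))
  obtain ⟨s, hs⟩ := key n
  rw [div_lt_iff₀ (by positivity)] at hn
  have h1 : ‖R (vec s fun _ => 1)‖ ≤ ‖R‖ := by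
    refine (R.le_opNorm _).trans (mul_le_of_le_one_right (norm_nonneg _)
      (norm_le_c0 _ zero_le_one fun k => ?_))
    show |if k ∈ s then (1 : ℝ) else 0| ≤ 1
    split_ifs <;> simp
  linarith


/-- If the norm of `X_𝓕` is equivalent to the `ℓ_1` norm, then `X_𝓕` contains no copy of `c_0`. -/
theorem no_c0_of_l1 {Ω : Type} {𝓕 : Set (Finset Ω)} {n : ℝ}
    (h : ∀ (x : C00 𝓕) (s : Finset Ω), ∑ k ∈ s, |x k| ≤ n * ‖x‖) : ¬ ContainsC0 (X 𝓕) := by
  classical
  rintro ⟨T, c, hc, hT⟩
  have hmem : ∀ x : C00 𝓕, Memℓp (fun k => x k) 1 := by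
    intro x
    refine memℓp_gen' (C := n * ‖x‖) fun s => ?_
    simpa using h x s
  have hn1 : ∀ x : C00 𝓕, ‖(⟨fun k => x k, hmem x⟩ : lp (fun _ : Ω => ℝ) 1)‖ = ∑' k, |x k| := by
    intro x
    rw [lp.norm_eq_tsum_rpow (by simp)]
    simp
  have hs1 : ∀ x : C00 𝓕, Summable fun k => |x k| := by
    intro x
    have := (hmem x).summable (by simp)
    simpa using this
  let J0 : C00 𝓕 →ₗ[ℝ] lp (fun _ : Ω => ℝ) 1 :=
    { toFun := fun x => ⟨fun k => x k, hmem x⟩
      map_add' := fun x y => by ext k; rfl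
      map_smul' := fun c x => by ext k; rfl }
  let J : C00 𝓕 →L[ℝ] lp (fun _ : Ω => ℝ) 1 := J0.mkContinuous n fun x => by
    show ‖(⟨fun k => x k, hmem x⟩ : lp (fun _ : Ω => ℝ) 1)‖ ≤ _
    rw [hn1]
    exact Real.tsum_le_of_sum_le (fun _ => abs_nonneg _) fun s => h x s
  have hJx : ∀ x, ‖x‖ ≤ ‖J x‖ := by
    intro x
    show _ ≤ ‖(⟨fun k => x k, hmem x⟩ : lp (fun _ : Ω => ℝ) 1)‖
    rw [hn1]
    refine norm_le x (tsum_nonneg fun _ => abs_nonneg _) fun F _ => ?_
    exact (hs1 x).sum_le_tsum F fun _ _ => abs_nonneg _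
  let e : C00 𝓕 →L[ℝ] X 𝓕 := UniformSpace.Completion.toComplL
  let J' : X 𝓕 →L[ℝ] lp (fun _ : Ω => ℝ) 1 := J.extend e
  have hJ' : ∀ x : C00 𝓕, J' (x : X 𝓕) = J x := fun x =>
    J.extend_eq (e := e) UniformSpace.Completion.denseRange_coe
      (UniformSpace.Completion.isUniformInducing_coe _) x
  have hlow : ∀ v : X 𝓕, ‖v‖ ≤ ‖J' v‖ := by
    intro v
    induction v using UniformSpace.Completion.induction_on with
    | hp => exact isClosed_le continuous_norm (J'.continuous.norm)
    | ih x =>
      rw [hJ', UniformSpace.Completion.norm_coe]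
      exact hJx x
  exact no_c0_l1 (J'.comp T) hc fun a => (hT a).trans (hlow _)

/-- A sequence which is equivalent to the basis of `c_0` gives a copy of `c_0`. -/
theorem c0_of_seq {E : Type} [NormedAddCommGroup E] [NormedSpace ℝ E] [CompleteSpace E]
    (u : ℕ → E) (h1 : ∀ (s : Finset ℕ) (a : ℕ → ℝ) (M : ℝ), 0 ≤ M → (∀ k ∈ s, |a k| ≤ M) →
      ‖∑ k ∈ s, a k • u k‖ ≤ 3 * M)
    (h2 : ∀ (s : Finset ℕ) (a : ℕ → ℝ), ∀ k ∈ s, |a k| ≤ ‖∑ k ∈ s, a k • u k‖) :
    ContainsC0 E := by
  classical
  have hsum : ∀ a : C₀(ℕ, ℝ), Summable fun k => a k • u k := by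
    intro a
    rw [summable_iff_vanishing_norm]
    intro ε hε
    have ha : Tendsto a atTop (𝓝 0) := by
      have := a.zero_at_infty'
      rwa [cocompact_eq_cofinite, Nat.cofinite_eq_atTop] at this
    have ha' : ∀ᶠ k in atTop, |a k| < ε / 4 := by
      have := (tendsto_zero_iff_abs_tendsto_zero _).1 ha
      exact this.eventually (gt_mem_nhds (by positivity))
    obtain ⟨K, hK⟩ := ha'.exists_forall_of_atTop
    refine ⟨Finset.range K, fun t ht => ?_⟩
    have h3 := h1 t a (ε / 4) (by positivity) fun k hk => (hK k (by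
      by_contra hlt
      push Not at hlt
      exact Finset.disjoint_left.1 ht hk (Finset.mem_range.2 hlt))).le
    linarith
  let T0 : C₀(ℕ, ℝ) →ₗ[ℝ] E :=
    { toFun := fun a => ∑' k, a k • u k
      map_add' := fun a b => by
        rw [← (hsum a).tsum_add (hsum b)]
        refine tsum_congr fun k => ?_
        rw [ZeroAtInftyContinuousMap.add_apply, add_smul]
      map_smul' := fun c a => by
        rw [RingHom.id_apply, ← (hsum a).tsum_const_smul]
        refine tsum_congr fun k => ?_
        rw [ZeroAtInftyContinuousMap.smul_apply, smul_assoc] }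
  have hT0 : ∀ a, T0 a = ∑' k, a k • u k := fun _ => rfl
  let T : C₀(ℕ, ℝ) →L[ℝ] E := T0.mkContinuous 3 fun a => by
    rw [hT0]
    refine le_of_tendsto (hsum a).hasSum.norm (Eventually.of_forall fun s => ?_)
    exact h1 s a _ (norm_nonneg _) fun k _ => abs_le_norm a k
  refine ⟨T, 1, one_pos, fun a => ?_⟩
  rw [one_mul]
  refine norm_le_c0 a (norm_nonneg _) fun k => ?_
  show |a k| ≤ ‖∑' k, a k • u k‖
  refine ge_of_tendsto (hsum a).hasSum.norm ?_
  filter_upwards [eventually_ge_atTop ({k} : Finset ℕ)] with s hs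
  exact h2 s a k (hs (Finset.mem_singleton_self k))

end C0

section Main

theorem mem_restrict {Ω : Type} {𝓕 : Set (Finset Ω)} {H : Set Ω} {G : Finset H}
    (h : G.map (Function.Embedding.subtype _) ∈ 𝓕) : G ∈ restrict 𝓕 H := by
  classical
  refine ⟨_, h, ?_⟩
  ext t
  simp

theorem finset_mem_family {F : Finset Node}
    (h : IsAntichain (fun s t : Node => s <+: t) (F : Set Node)) : F ∈ family := Or.inl h

/-- every node lies in a member of the family -/
theorem family_cover (s : Node) : ∃ F ∈ family, s ∈ F := by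
  classical
  refine ⟨{s}, Or.inl ?_, Finset.mem_singleton_self s⟩
  rw [Finset.coe_singleton]
  exact Set.subsingleton_singleton.isAntichain _

theorem l1_of_finUnion {H : Set Node} {n : ℕ} {A : Fin n → Set Node}
    (hA : ∀ i, IsAntichain (fun s t : Node => s <+: t) (A i)) (hH : H = ⋃ i, A i)
    (x : C00 (restrict family H)) (s : Finset H) : ∑ k ∈ s, |x k| ≤ n * ‖x‖ := by
  classical
  have h1 : ∑ k ∈ s, |x k| ≤ ∑ i : Fin n, ∑ k ∈ s.filter (fun k : H => (k : Node) ∈ A i), |x k| := by
    have h2 : ∀ i : Fin n, ∑ k ∈ s.filter (fun k : H => (k : Node) ∈ A i), |x k| =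
        ∑ k ∈ s, if (k : Node) ∈ A i then |x k| else 0 := fun i => by rw [Finset.sum_filter]
    rw [Finset.sum_congr rfl fun i _ => h2 i, Finset.sum_comm]
    refine Finset.sum_le_sum fun k _ => ?_
    have hk : (k : Node) ∈ ⋃ i, A i := hH ▸ k.2
    obtain ⟨i, hi⟩ := mem_iUnion.1 hk
    refine le_trans ?_ (Finset.single_le_sum (f := fun i => if (k : Node) ∈ A i then |x k| else 0)
      (fun i _ => ?_) (Finset.mem_univ i))
    · simp only [if_pos hi]; exact le_rfl
    · show 0 ≤ if (k : Node) ∈ A i then |x k| else 0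
      split_ifs
      · exact abs_nonneg _
      · exact le_rfl
  refine h1.trans ?_
  have h3 : ∀ i : Fin n, ∑ k ∈ s.filter (fun k : H => (k : Node) ∈ A i), |x k| ≤ ‖x‖ := by
    intro i
    refine le_norm x (mem_restrict (finset_mem_family ?_))
    refine (hA i).subset ?_
    intro t ht
    rw [Finset.coe_map] at ht
    obtain ⟨k, hk, rfl⟩ := ht
    exact (Finset.mem_filter.1 hk).2
  calc _ ≤ ∑ _i : Fin n, ‖x‖ := Finset.sum_le_sum fun i _ => h3 i
    _ = n * ‖x‖ := by simp

open Classical in
/-- the prefixes of `s` that lie in `H` -/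
noncomputable def pre (H : Set Node) (s : Node) : Finset Node := s.inits.toFinset.filter (· ∈ H)

theorem mem_pre {H : Set Node} {s t : Node} : t ∈ pre H s ↔ t <+: s ∧ t ∈ H := by
  simp [pre]

theorem finUnion_of_bdd {H : Set Node} {n : ℕ} (h : ∀ s ∈ H, (pre H s).card ≤ n) :
    FinUnionAntichains H := by
  classical
  refine ⟨n + 1, fun i => {s | s ∈ H ∧ (pre H s).card = i}, ?_, ?_⟩
  · intro i s hs t ht hne hst
    have hsub : pre H s ⊂ pre H t := by
      rw [Finset.ssubset_iff_of_subset]
      · refine ⟨t, mem_pre.2 ⟨List.prefix_rfl, ht.1⟩, fun h1 => hne ?_⟩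
        exact List.IsPrefix.eq_of_length_le hst (mem_pre.1 h1).1.length_le
      · intro r hr
        obtain ⟨h1, h2⟩ := mem_pre.1 hr
        exact mem_pre.2 ⟨h1.trans hst, h2⟩
    have := Finset.card_lt_card hsub
    rw [hs.2, ht.2] at this
    exact absurd this (lt_irrefl _)
  · ext s
    rw [mem_iUnion]
    constructor
    · intro hs
      exact ⟨⟨(pre H s).card, Nat.lt_succ_of_le (h s hs)⟩, hs, rfl⟩
    · rintro ⟨i, hi⟩
      exact hi.1

theorem exists_chain {H : Set Node} (hH : ¬ FinUnionAntichains H) (k L : ℕ) :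
    ∃ (G : Finset Node) (L' : ℕ), (∀ t ∈ G, t ∈ H) ∧
      IsChain (fun s t : Node => s <+: t) (G : Set Node) ∧ 2 ^ k * (L + 1) = G.card ∧
      (∀ t ∈ G, G.card ≤ t.length) ∧ (∀ t ∈ G, t.length ≤ L') := by
  classical
  set n := 2 ^ k * (L + 1) with hn
  obtain ⟨s, hs, hcard⟩ : ∃ s ∈ H, 2 * n < (pre H s).card := by
    by_contra hcon
    push Not at hcon
    exact hH (finUnion_of_bdd hcon)
  have hsmall : ((pre H s).filter fun t => t.length < n).card ≤ n := by
    have h1 : ((pre H s).filter fun t => t.length < n).card ≤ (Finset.range n).card := by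
      refine Finset.card_le_card_of_injOn List.length ?_ ?_
      · intro t ht
        exact Finset.mem_coe.2 (Finset.mem_range.2 (Finset.mem_filter.1 ht).2)
      · intro t ht r hr hlen
        have h1 := (mem_pre.1 (Finset.mem_filter.1 ht).1).1
        have h2 := (mem_pre.1 (Finset.mem_filter.1 hr).1).1
        exact List.IsPrefix.eq_of_length (List.prefix_of_prefix_length_le h1 h2 hlen.le) hlen
    simpa using h1
  have hbig : n ≤ ((pre H s).filter fun t => ¬ t.length < n).card := by
    have := Finset.card_filter_add_card_filter_not (s := pre H s) (fun t => t.length < n)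
    omega
  obtain ⟨G, hG1, hG2⟩ := Finset.exists_subset_card_eq hbig
  refine ⟨G, s.length, ?_, ?_, hG2.symm, ?_, ?_⟩
  · intro t ht
    exact (mem_pre.1 (Finset.mem_filter.1 (hG1 ht)).1).2
  · intro t ht r hr _
    exact List.prefix_or_prefix_of_prefix (mem_pre.1 (Finset.mem_filter.1 (hG1 ht)).1).1
      (mem_pre.1 (Finset.mem_filter.1 (hG1 hr)).1).1
  · intro t ht
    rw [hG2]
    exact not_lt.1 (Finset.mem_filter.1 (hG1 ht)).2
  · intro t ht
    exact (mem_pre.1 (Finset.mem_filter.1 (hG1 ht)).1).1.length_le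

/-- the blocks -/
theorem exists_blocks {H : Set Node} (hH : ¬ FinUnionAntichains H) :
    ∃ (G : ℕ → Finset Node) (L : ℕ → ℕ), Monotone L ∧ ∀ k, (∀ t ∈ G k, t ∈ H) ∧
      IsChain (fun s t : Node => s <+: t) (G k : Set Node) ∧ 2 ^ k * (L k + 1) = (G k).card ∧
      (∀ t ∈ G k, (G k).card ≤ t.length) ∧ (∀ t ∈ G k, t.length ≤ L (k + 1)) := by
  classical
  choose G L' h1 h2 h3 h4 h5 using fun k L => exists_chain hH k L
  let L : ℕ → ℕ := fun k => Nat.rec 0 (fun k l => L' k l) k
  refine ⟨fun k => G k (L k), L, monotone_nat_of_le_succ fun k => ?_, fun k =>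
    ⟨h1 k (L k), h2 k (L k), h3 k (L k), h4 k (L k), h5 k (L k)⟩⟩
  have hpos : 0 < (G k (L k)).card := by rw [← h3]; positivity
  obtain ⟨t, ht⟩ := Finset.card_pos.1 hpos
  have h6 := h4 k (L k) t ht
  have h7 := h5 k (L k) t ht
  have h8 : L k + 1 ≤ (G k (L k)).card := by
    rw [← h3]
    exact Nat.le_mul_of_pos_left _ (by positivity)
  exact (by omega : L k ≤ L' k (L k))

theorem c0_of_not_finUnion {H : Set Node} (hH : ¬ FinUnionAntichains H) :
    ContainsC0 (X (restrict family H)) := by
  classical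
  obtain ⟨G, L, hL, hG⟩ := exists_blocks hH
  have hn : ∀ k, (0 : ℝ) < (G k).card := by
    intro k
    have : 0 < (G k).card := by rw [← (hG k).2.2.1]; positivity
    exact_mod_cast this
  have hlow : ∀ k, ∀ t ∈ G k, L k < t.length := by
    intro k t ht
    have h1 := (hG k).2.2.2.1 t ht
    have h2 : L k + 1 ≤ (G k).card := by
      rw [← (hG k).2.2.1]
      exact Nat.le_mul_of_pos_left _ (by positivity)
    omega
  have hdisj : ∀ j k t, t ∈ G j → t ∈ G k → j = k := by
    have hlt : ∀ j k t, j < k → t ∈ G j → t ∈ G k → False := by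
      intro j k t hjk h1 h2
      have h3 := (hG j).2.2.2.2 t h1
      have h4 := hlow k t h2
      have h5 := hL (Nat.succ_le_of_lt hjk)
      simp only [Nat.succ_eq_add_one] at h5
      omega
    intro j k t h1 h2
    rcases lt_trichotomy j k with h | h | h
    · exact (hlt j k t h h1 h2).elim
    · exact h
    · exact (hlt k j t h h2 h1).elim
  -- the counting estimate
  have hcount : ∀ F ∈ family, ∀ s : Finset ℕ,
      ∑ k ∈ s, ((F ∩ G k).card : ℝ) / (G k).card ≤ 3 := by
    intro F hF s
    have hgeo : ∀ j : ℕ, ∑ k ∈ s, (((1 : ℝ) / 2) ^ k + if k = j then 1 else 0) ≤ 3 := by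
      intro j
      rw [Finset.sum_add_distrib]
      have e1 : ∑ k ∈ s, ((1 : ℝ) / 2) ^ k ≤ 2 := by
        have := summable_geometric_two.sum_le_tsum s fun _ _ => by positivity
        rwa [tsum_geometric_two] at this
      have e2 : ∑ k ∈ s, (if k = j then (1 : ℝ) else 0) ≤ 1 := by
        rw [Finset.sum_ite_eq']
        split_ifs <;> simp
      linarith
    obtain ⟨j, hj⟩ : ∃ j, ∀ k, k ≠ j → ((F ∩ G k).card : ℝ) / (G k).card ≤ (1 / 2) ^ k := by
      have hbound : ∀ k (m : ℕ), m * 2 ^ k ≤ (G k).card → (F ∩ G k).card ≤ m →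
          ((F ∩ G k).card : ℝ) / (G k).card ≤ (1 / 2) ^ k := by
        intro k m h1 h2
        rw [div_le_iff₀ (hn k), one_div, inv_pow, inv_mul_eq_div, le_div_iff₀ (by positivity)]
        calc ((F ∩ G k).card : ℝ) * 2 ^ k ≤ m * 2 ^ k := by
              have : ((F ∩ G k).card : ℝ) ≤ m := by exact_mod_cast h2
              gcongr
          _ ≤ (G k).card := by exact_mod_cast h1
      rcases hF with hF | hF
      · refine ⟨0, fun k _ => hbound k 1 ?_ ?_⟩
        · rw [one_mul, ← (hG k).2.2.1]
          exact Nat.le_mul_of_pos_right _ (Nat.succ_pos _)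
        · rw [Finset.card_le_one]
          intro a ha b hb
          by_contra hne
          rw [Finset.mem_inter] at ha hb
          rcases (hG k).2.1 ha.2 hb.2 hne with h | h
          · exact hF ha.1 hb.1 hne h
          · exact hF hb.1 ha.1 (Ne.symm hne) h
      · by_cases hex : ∃ j, (F ∩ G j).Nonempty
        · refine ⟨Nat.find hex, fun k hk => ?_⟩
          obtain ⟨t, ht⟩ := Nat.find_spec hex
          rw [Finset.mem_inter] at ht
          rcases lt_or_gt_of_ne hk with h | h
          · have h1 := Nat.find_min hex h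
            rw [Finset.not_nonempty_iff_eq_empty] at h1
            rw [h1, Finset.card_empty, Nat.cast_zero, zero_div]
            positivity
          · refine hbound k (L k + 1) ?_ ?_
            · rw [← (hG k).2.2.1, mul_comm]
            · have h1 := hF.2 t ht.1
              have h2 := (hG _).2.2.2.2 t ht.2
              have h3 := hL (Nat.succ_le_of_lt h)
              simp only [Nat.succ_eq_add_one] at h3
              have h4 := Finset.card_le_card (Finset.inter_subset_left (s₁ := F) (s₂ := G k))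
              omega
        · refine ⟨0, fun k _ => ?_⟩
          push Not at hex
          have h1 := hex k
          rw [h1, Finset.card_empty, Nat.cast_zero, zero_div]
          positivity
    refine le_trans (Finset.sum_le_sum fun k _ => ?_) (hgeo j)
    by_cases hk : k = j
    · rw [if_pos hk]
      have h1 : ((F ∩ G k).card : ℝ) / (G k).card ≤ 1 := by
        rw [div_le_one (hn k)]
        exact_mod_cast Finset.card_le_card Finset.inter_subset_right
      have h2 : (0 : ℝ) ≤ (1 / 2) ^ k := by positivity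
      linarith
    · rw [if_neg hk, add_zero]
      exact hj k hk
  -- the vectors
  let v : ℕ → (H →₀ ℝ) := fun k => Finsupp.onFinset ((G k).subtype (· ∈ H))
    (fun t => if (t : Node) ∈ G k then 1 / ((G k).card : ℝ) else 0) (by
      intro t ht
      by_contra hcon
      rw [Finset.mem_subtype] at hcon
      exact ht (if_neg hcon))
  have hv : ∀ k (t : H), v k t = if (t : Node) ∈ G k then 1 / ((G k).card : ℝ) else 0 :=
    fun k t => rfl
  let w : ℕ → C00 (restrict family H) := v
  have hw : ∀ (s : Finset ℕ) (a : ℕ → ℝ) (t : H), (∑ k ∈ s, a k • w k : C00 (restrict family H)) t =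
      ∑ k ∈ s, a k * (if (t : Node) ∈ G k then 1 / ((G k).card : ℝ) else 0) := by
    intro s a t
    show (∑ k ∈ s, a k • v k : H →₀ ℝ) t = _
    rw [Finsupp.finsetSum_apply]
    refine Finset.sum_congr rfl fun k _ => ?_
    rw [Finsupp.smul_apply, hv, smul_eq_mul]
  have hcoe : ∀ (s : Finset ℕ) (a : ℕ → ℝ), ‖∑ k ∈ s, a k • ((w k : C00 (restrict family H)) :
      X (restrict family H))‖ = ‖(∑ k ∈ s, a k • w k : C00 (restrict family H))‖ := by
    intro s a
    rw [← UniformSpace.Completion.norm_coe (∑ k ∈ s, a k • w k : C00 (restrict family H))]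
    congr 1
    have := map_sum (UniformSpace.Completion.toComplL (𝕜 := ℝ) (E := C00 (restrict family H)))
      (fun k => a k • w k) s
    simp only [map_smul] at this
    exact this.symm
  refine c0_of_seq (fun k => ((w k : C00 (restrict family H)) : X (restrict family H))) ?_ ?_
  · intro s a M hM ha
    rw [hcoe]
    refine norm_le _ (by positivity) ?_
    rintro _ ⟨F, hF, rfl⟩
    calc ∑ t ∈ F.subtype (· ∈ H), |(∑ k ∈ s, a k • w k : C00 (restrict family H)) t|
        ≤ ∑ t ∈ F.subtype (· ∈ H), ∑ k ∈ s,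
            M * (if (t : Node) ∈ G k then 1 / ((G k).card : ℝ) else 0) := by
          refine Finset.sum_le_sum fun t _ => ?_
          rw [hw]
          refine (Finset.abs_sum_le_sum_abs _ _).trans (Finset.sum_le_sum fun k hk => ?_)
          have h0 : (0 : ℝ) ≤ if (t : Node) ∈ G k then 1 / ((G k).card : ℝ) else 0 := by
            split_ifs
            · exact (one_div_pos.2 (hn k)).le
            · exact le_rfl
          rw [abs_mul, abs_of_nonneg h0]
          exact mul_le_mul_of_nonneg_right (ha k hk) h0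
      _ = M * ∑ k ∈ s, ∑ t ∈ F.subtype (· ∈ H),
            (if (t : Node) ∈ G k then 1 / ((G k).card : ℝ) else 0) := by
          rw [Finset.sum_comm, Finset.mul_sum]
          refine Finset.sum_congr rfl fun k _ => ?_
          rw [Finset.mul_sum]
      _ ≤ M * ∑ k ∈ s, ((F ∩ G k).card : ℝ) / (G k).card := by
          refine mul_le_mul_of_nonneg_left (Finset.sum_le_sum fun k _ => ?_) hM
          have h1 : ∑ t ∈ F.subtype (· ∈ H),
              (if (t : Node) ∈ G k then 1 / ((G k).card : ℝ) else 0) =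
              (((F.subtype (· ∈ H)).filter fun t : H => (t : Node) ∈ G k).card : ℝ) *
                (1 / (G k).card) := by
            rw [← Finset.sum_filter, Finset.sum_const, nsmul_eq_mul]
          rw [h1, mul_one_div]
          refine div_le_div_of_nonneg_right ?_ (hn k).le
          have h2 : ((F.subtype (· ∈ H)).filter fun t : H => (t : Node) ∈ G k).card ≤
              (F ∩ G k).card := by
            refine Finset.card_le_card_of_injOn (fun t : H => (t : Node)) ?_ ?_
            · intro t ht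
              have h3 := Finset.mem_filter.1 ht
              exact Finset.mem_coe.2 (Finset.mem_inter.2 ⟨Finset.mem_subtype.1 h3.1, h3.2⟩)
            · intro t _ r _ h
              exact Subtype.ext h
          exact_mod_cast h2
      _ ≤ M * 3 := mul_le_mul_of_nonneg_left (hcount F hF s) hM
      _ = 3 * M := mul_comm _ _
  · intro s a k hk
    rw [hcoe]
    have hmem : G k ∈ family := by
      refine Or.inr ⟨(hG k).2.1, fun t ht => ?_⟩
      exact ((hG k).2.2.2.1 t ht).trans (Nat.le_succ _)
    have h1 : (G k).subtype (· ∈ H) ∈ restrict family H := ⟨G k, hmem, rfl⟩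
    refine le_trans ?_ (le_norm _ h1)
    have h2 : ∀ t ∈ (G k).subtype (· ∈ H),
        |(∑ k ∈ s, a k • w k : C00 (restrict family H)) t| = |a k| * (1 / (G k).card) := by
      intro t ht
      rw [Finset.mem_subtype] at ht
      rw [hw, Finset.sum_eq_single k]
      · rw [if_pos ht, abs_mul, abs_of_nonneg (one_div_pos.2 (hn k)).le]
      · intro j _ hjk
        rw [if_neg, mul_zero]
        intro hcon
        exact hjk (hdisj j k t hcon ht)
      · intro hcon
        exact absurd hk hcon
    rw [Finset.sum_congr rfl h2, Finset.sum_const, nsmul_eq_mul]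
    have h3 : ((G k).subtype (· ∈ H)).card = (G k).card := by
      rw [Finset.card_subtype]
      congr 1
      rw [Finset.filter_eq_self]
      exact (hG k).1
    rw [h3]
    have := hn k
    field_simp
    exact le_rfl

/-- **Main theorem.** There is a family `𝓕` of finite sets of nodes covering the binary tree such
that for every set `H` of nodes, `X_{𝓕 ↾ H}` contains no copy of `c_0` exactly when `H` is a union
of finitely many antichains. -/
theorem result : ∃ 𝓕 : Set (Finset Node), (∀ s : Node, ∃ F ∈ 𝓕, s ∈ F) ∧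
    ∀ H : Set Node, ¬ ContainsC0 (X (restrict 𝓕 H)) ↔ FinUnionAntichains H := by
  refine ⟨family, family_cover, fun H => ⟨fun h => ?_, ?_⟩⟩
  · by_contra hcon
    exact h (c0_of_not_finUnion hcon)
  · rintro ⟨n, A, hA, hH⟩
    exact no_c0_of_l1 (n := n) fun x s => l1_of_finUnion hA hH x s

end Main

end Pool.Agent.Results.MP_de5a3f_an.AntichainSchreierFamily
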